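import Pool.Agent.Shared.Kuhn.Sperner

/-! A complementarity problem on a box and a market with penalties. -/

namespace Pool.Agent.FS.GmmsReplica

open Finset

/-- Complementarity on the unit cube. -/
theorem box {J : Type} [Fintype J] [DecidableEq J] (F : (J → ℝ) → J → ℝ) (hF : Continuous F) :
    ∃ z : J → ℝ, (∀ j, 0 ≤ z j ∧ z j ≤ 1) ∧ (∀ j, 0 < z j → 0 ≤ F z j) ∧
      ∀ j, z j < 1 → F z j ≤ 0 := by
  obtain ⟨z, hz, h⟩ := Pool.Agent.Shared.Kuhn.brouwer_cube
    (fun z j => max 0 (min 1 (z j + F z j)))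
    (by
      refine Continuous.continuousOn (continuous_pi fun j => ?_)
      have h1 : Continuous fun z => F z j := (continuous_apply j).comp hF
      exact continuous_const.max (continuous_const.min ((continuous_apply j).add h1)))
    (fun z _ => ⟨fun j => le_max_left _ _, fun j => max_le zero_le_one (min_le_left _ _)⟩)
  refine ⟨z, fun j => ⟨hz.1 j, hz.2 j⟩, fun j hj => ?_, fun j hj => ?_⟩
  · have h1 : max 0 (min 1 (z j + F z j)) = z j := congrFun h j
    by_contra hc
    have h2 : max 0 (min 1 (z j + F z j)) < z j :=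
      max_lt hj ((min_le_right _ _).trans_lt (by linarith [not_le.1 hc]))
    linarith
  · have h1 : max 0 (min 1 (z j + F z j)) = z j := congrFun h j
    by_contra hc
    have h2 : z j < max 0 (min 1 (z j + F z j)) :=
      lt_max_of_lt_right (lt_min hj (by linarith [not_le.1 hc]))
    linarith

/-- Masses `a` of agents of each type, supply `s` of each good: prices and scaling factors of the
penalties `c` such that every bundle in use minimises price plus penalty, with minimum one. -/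
theorem equil {I G β : Type} [Fintype I] [DecidableEq I] [Fintype G] [DecidableEq G] [Fintype β]
    [DecidableEq β] (q : β → G → ℕ) (c : I → β → ℝ) (hc : ∀ i B, 0 < c i B) (B₀ : β)
    (h0 : ∀ g, q B₀ g = 0) (a : I → ℝ) (ha : ∀ i, 0 ≤ a i) (s : G → ℝ) (hs : ∀ g, 0 ≤ s g) :
    ∃ (x : I → β → ℝ) (p : G → ℝ) (lam : I → ℝ), (∀ i B, 0 ≤ x i B) ∧ (∀ g, 0 ≤ p g) ∧
      (∀ i, 0 < lam i) ∧ (∀ i, ∑ B, x i B = a i) ∧ (∀ g, ∑ i, ∑ B, x i B * q B g ≤ s g) ∧
      (∀ g, 0 < p g → ∑ i, ∑ B, x i B * q B g = s g) ∧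
      (∀ i B, 1 ≤ lam i * c i B + ∑ g, q B g * p g) ∧
      ∀ i B, 0 < x i B → lam i * c i B + ∑ g, q B g * p g = 1 := by
  obtain ⟨Λ, hΛ0, hΛ⟩ : ∃ Λ : ℝ, 0 < Λ ∧ ∀ i B, 1 < Λ * c i B := by
    have h1 : 0 ≤ ∑ s : I × β, (c s.1 s.2)⁻¹ := sum_nonneg fun s _ => (inv_pos.2 (hc _ _)).le
    refine ⟨∑ s : I × β, (c s.1 s.2)⁻¹ + 1, by linarith, fun i B => ?_⟩
    have h2 : (c i B)⁻¹ ≤ ∑ s : I × β, (c s.1 s.2)⁻¹ :=
      single_le_sum (f := fun s : I × β => (c s.1 s.2)⁻¹)
        (fun s _ => (inv_pos.2 (hc _ _)).le) (mem_univ (i, B))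
    have h3 := mul_le_mul_of_nonneg_right h2 (hc i B).le
    rw [inv_mul_cancel₀ (hc i B).ne'] at h3
    have := hc i B
    linarith
  obtain ⟨X, hX0, hX⟩ : ∃ X : ℝ, 0 < X ∧ ∀ i, a i < X := by
    have h1 : 0 ≤ ∑ i, a i := sum_nonneg fun i _ => ha i
    refine ⟨∑ i, a i + 1, by linarith, fun i => ?_⟩
    linarith [single_le_sum (f := a) (fun i _ => ha i) (mem_univ i)]
  obtain ⟨z, hz, hpos, hlt⟩ := box (J := (I × β) ⊕ G ⊕ I)
    (fun z => Sum.elim
      (fun s => 1 - (Λ * z (.inr (.inr s.1)) * c s.1 s.2 + ∑ g, q s.2 g * (2 * z (.inr (.inl g)))))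
      (Sum.elim (fun g => ∑ i, ∑ B, X * z (.inl (i, B)) * q B g - s g)
        fun i => ∑ B, X * z (.inl (i, B)) - a i))
    (by
      refine continuous_pi fun j => ?_
      rcases j with s | g | i <;> simp only [Sum.elim_inl, Sum.elim_inr] <;> fun_prop)
  set x : I → β → ℝ := fun i B => X * z (.inl (i, B)) with hx
  set p : G → ℝ := fun g => 2 * z (.inr (.inl g)) with hp
  set lam : I → ℝ := fun i => Λ * z (.inr (.inr i)) with hlam
  have x0 : ∀ i B, 0 ≤ x i B := fun i B => mul_nonneg hX0.le (hz _).1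
  have p0 : ∀ g, 0 ≤ p g := fun g => mul_nonneg zero_le_two (hz _).1
  have l0 : ∀ i, 0 ≤ lam i := fun i => mul_nonneg hΛ0.le (hz _).1
  have lt1 : ∀ {Y t : ℝ}, 0 < Y → Y * t < Y → t < 1 := fun hY h => by
    by_contra h1
    linarith [mul_le_mul_of_nonneg_left (not_lt.1 h1) hY.le]
  have x1 : ∀ i B, 0 < x i B → lam i * c i B + ∑ g, q B g * p g ≤ 1 := fun i B h => by
    have := hpos (.inl (i, B)) ((mul_pos_iff_of_pos_left hX0).1 h)
    simp only [Sum.elim_inl] at this
    simp only [hlam, hp]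
    linarith
  have x2 : ∀ i B, x i B < X → 1 ≤ lam i * c i B + ∑ g, q B g * p g := fun i B h => by
    have := hlt (.inl (i, B)) (lt1 hX0 h)
    simp only [Sum.elim_inl] at this
    simp only [hlam, hp]
    linarith
  have p1 : ∀ g, 0 < p g → s g ≤ ∑ i, ∑ B, x i B * q B g := fun g h => by
    have := hpos (.inr (.inl g)) ((mul_pos_iff_of_pos_left zero_lt_two).1 h)
    simp only [Sum.elim_inl, Sum.elim_inr] at this
    simp only [hx]
    linarith
  have p2 : ∀ g, p g < 2 → ∑ i, ∑ B, x i B * q B g ≤ s g := fun g h => by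
    have := hlt (.inr (.inl g)) (lt1 zero_lt_two h)
    simp only [Sum.elim_inl, Sum.elim_inr] at this
    simp only [hx]
    linarith
  have l1 : ∀ i, 0 < lam i → a i ≤ ∑ B, x i B := fun i h => by
    have := hpos (.inr (.inr i)) ((mul_pos_iff_of_pos_left hΛ0).1 h)
    simp only [Sum.elim_inr] at this
    simp only [hx]
    linarith
  have l2 : ∀ i, lam i < Λ → ∑ B, x i B ≤ a i := fun i h => by
    have := hlt (.inr (.inr i)) (lt1 hΛ0 h)
    simp only [Sum.elim_inr] at this
    simp only [hx]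
    linarith
  have s0 : ∀ B, 0 ≤ ∑ g, q B g * p g := fun B =>
    sum_nonneg fun g _ => mul_nonneg (Nat.cast_nonneg _) (p0 g)
  have u1 : ∀ g, ∑ i, ∑ B, x i B * q B g ≤ s g := fun g => by
    rcases lt_or_ge (p g) 2 with h | h
    · exact p2 g h
    refine le_of_eq_of_le (sum_eq_zero fun i _ => sum_eq_zero fun B _ => ?_) (hs g)
    rcases (x0 i B).eq_or_lt with h3 | h3
    · rw [← h3, zero_mul]
    · rcases Nat.eq_zero_or_pos (q B g) with h4 | h4
      · rw [h4, Nat.cast_zero, mul_zero]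
      · exfalso
        have h5 := x1 i B h3
        have h6 : (q B g : ℝ) * p g ≤ ∑ g, q B g * p g :=
          single_le_sum (f := fun g => (q B g : ℝ) * p g)
            (fun g _ => mul_nonneg (Nat.cast_nonneg _) (p0 g)) (mem_univ g)
        have h7 : (1 : ℝ) ≤ q B g := by exact_mod_cast h4
        have h8 := mul_nonneg (l0 i) (hc i B).le
        nlinarith
  have m1 : ∀ i, ∑ B, x i B ≤ a i := fun i => by
    rcases lt_or_ge (lam i) Λ with h | h
    · exact l2 i h
    refine le_of_eq_of_le (sum_eq_zero fun B _ => ?_) (ha i)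
    rcases (x0 i B).eq_or_lt with h3 | h3
    · exact h3.symm
    · exfalso
      have h5 := x1 i B h3
      have h6 := mul_le_mul_of_nonneg_right h (hc i B).le
      linarith [hΛ i B, s0 B]
  have c1 : ∀ i B, 1 ≤ lam i * c i B + ∑ g, q B g * p g := fun i B => by
    refine x2 i B ?_
    have := single_le_sum (f := x i) (fun B _ => x0 i B) (mem_univ B)
    linarith [m1 i, hX i]
  have l3 : ∀ i, 0 < lam i := fun i => by
    refine (l0 i).lt_of_ne fun h => ?_
    have := c1 i B₀
    simp [← h, h0] at this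
    linarith
  exact ⟨x, p, lam, x0, p0, l3, fun i => le_antisymm (m1 i) (l1 i (l3 i)), u1,
    fun g h => le_antisymm (u1 g) (p1 g h), c1, fun i B h => le_antisymm (x1 i B h) (c1 i B)⟩

end Pool.Agent.FS.GmmsReplica
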