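import Pool.Agent.FS.GmmsReplica.Market
import Pool.Agent.Lib.MP_7939ee_co.Defs

/-! From an integral market to an allocation. -/

namespace Pool.Agent.FS.GmmsReplica

open Finset Pool.Agent.Lib.MP_7939ee_co

/-- An allocation with prices in which each agent pays `1 - η`, sets that are as good cost as much
and better sets cost at least `1 - η / L`, where `L` exceeds the number of agents. -/
theorem of_prices {N M : ℕ} (w : Fin N → Fin M → ℝ) (A : Fin M → Fin N) (P : Fin M → ℝ)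
    (η : Fin N → ℝ) (L : ℝ) (hL : N < L) (h0 : ∀ a, 0 < η a)
    (h1 : ∀ a, ∑ j ∈ bundle A a, P j = 1 - η a)
    (h2 : ∀ a T, ∑ j ∈ bundle A a, w a j ≤ ∑ j ∈ T, w a j → 1 - η a ≤ ∑ j ∈ T, P j)
    (h3 : ∀ a T, ∑ j ∈ bundle A a, w a j < ∑ j ∈ T, w a j → 1 - η a / L ≤ ∑ j ∈ T, P j) :
    IsGMMS 1 w A ∧ ∀ A' : Fin M → Fin N,
      (∀ a, ∑ j ∈ bundle A a, w a j ≤ ∑ j ∈ bundle A' a, w a j) →
      ∀ a, ∑ j ∈ bundle A' a, w a j ≤ ∑ j ∈ bundle A a, w a j := by
  have hL0 : 0 < L := (Nat.cast_nonneg N).trans_lt hL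
  refine ⟨fun a => ?_, fun A' hA a => ?_⟩
  · rw [one_mul]
    have : Nonempty {S : Finset (Fin N) // a ∈ S} := ⟨⟨univ, mem_univ _⟩⟩
    refine ciSup_le fun S => ?_
    have : Nonempty (Fin S.1.card) := ⟨⟨0, card_pos.2 ⟨a, S.2⟩⟩⟩
    refine ciSup_le fun B => ?_
    by_contra hc
    have h4 : ∀ l : Fin S.1.card,
        1 - η a / L ≤ ∑ j ∈ (S.1.biUnion (bundle A)).filter fun j => B j = l, P j := fun l =>
      h3 a _ ((not_le.1 hc).trans_le (ciInf_le (Finite.bddBelow_range _) l))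
    have h5 := sum_le_sum fun l (_ : l ∈ univ) => h4 l
    rw [sum_fiberwise, sum_biUnion fun b _ b' _ hb => by
      simp only [Function.onFun, bundle, disjoint_filter]
      exact fun j _ e1 e2 => hb (e1.symm.trans e2)] at h5
    simp only [h1, sum_const, card_univ, Fintype.card_fin, nsmul_eq_mul, sum_sub_distrib,
      mul_one, mul_sub] at h5
    have h6 : η a ≤ ∑ b ∈ S.1, η b := single_le_sum (fun b _ => (h0 b).le) S.2
    have h7 : (S.1.card : ℝ) ≤ N := by exact_mod_cast (card_le_univ _).trans_eq (by simp)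
    have h8 : (S.1.card : ℝ) * (η a / L) < η a := by
      rw [← mul_div_assoc, div_lt_iff₀ hL0, mul_comm]
      exact mul_lt_mul_of_pos_left (h7.trans_lt hL) (h0 a)
    linarith
  · by_contra hc
    have h4 := h3 a _ (not_le.1 hc)
    have h5 : η a / L < η a := by
      refine div_lt_self (h0 a) (lt_of_le_of_lt ?_ hL)
      exact_mod_cast a.pos
    have h6 : ∑ b, ∑ j ∈ bundle A b, P j < ∑ b, ∑ j ∈ bundle A' b, P j :=
      sum_lt_sum (fun b _ => (h1 b).trans_le (h2 b _ (hA b)))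
        ⟨a, mem_univ _, by rw [h1]; linarith⟩
    simp only [bundle, sum_fiberwise] at h6
    exact lt_irrefl _ h6

theorem main (n m K : ℕ) : ∃ d : ℕ, 0 < d ∧
    ∀ (v : Fin n → Fin m → ℝ) (N M : ℕ) (τ : Fin N → Fin n) (γ : Fin M → Fin m), 0 < N →
      (∀ i g, 0 ≤ v i g) → (∀ i, d ∣ #{a | τ a = i}) → (∀ g, d ∣ #{j | γ j = g}) →
      (∀ i g, 0 < v i g → ∑ j, v i (γ j) ≤ K * (#{a | τ a = i} : ℕ) * v i g) →
      ∃ A : Fin M → Fin N, IsGMMS 1 (fun a j => v (τ a) (γ j)) A ∧ ∀ A' : Fin M → Fin N,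
        (∀ a, ∑ j ∈ bundle A a, v (τ a) (γ j) ≤ ∑ j ∈ bundle A' a, v (τ a) (γ j)) →
        ∀ a, ∑ j ∈ bundle A' a, v (τ a) (γ j) ≤ ∑ j ∈ bundle A a, v (τ a) (γ j) := by
  classical
  obtain ⟨d, hd, h⟩ := int_market n m (K + 1)
  refine ⟨d, hd, fun v N M τ γ hN hv ha hs hK => ?_⟩
  choose a ha using ha
  choose s hs using hs
  have hd0 : (0 : ℝ) < d := by exact_mod_cast hd
  have hN0 : (0 : ℝ) ≤ N := Nat.cast_nonneg N
  obtain ⟨y, p, p0, y1, y2, y3, y4⟩ := h v hv a s (fun i g hi hg => by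
    have h1 := hK i g hg
    rw [sum_count γ univ (v i), ha] at h1
    simp only [hs] at h1
    have h2 : (0 : ℝ) < a i := by exact_mod_cast hi
    have h3 : d * ∑ g', s g' * v i g' ≤ d * (a i * (K * v i g)) := by
      rw [mul_sum]
      refine le_of_eq_of_le (sum_congr rfl fun g' _ => ?_) (h1.trans_eq ?_) <;> push_cast <;> ring
    have h4 := le_of_mul_le_mul_left h3 hd0
    have h5 := mul_pos h2 hg
    push_cast
    linarith) (N + 2) (by linarith)
  obtain ⟨u, u1, u2⟩ := exists_assign τ y fun i => by rw [y1, ha]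
  let e : Fin m → ℕ := fun g => d * s g - ∑ i, ∑ B, y i B * cnt B g
  let D : Fin N → Fin m → ℕ := fun b g => cnt (u b) g + if b = ⟨0, hN⟩ then e g else 0
  obtain ⟨A, -, A2⟩ := exists_assign γ (fun g b => D b g) fun g => by
    have h1 : ∑ b, cnt (u b) g = ∑ i, ∑ B, y i B * cnt B g := by
      have h2 := u2 fun _ B => cnt B g
      exact_mod_cast h2
    simp only [D, sum_add_distrib, h1, sum_ite_eq', mem_univ, if_true, hs]
    exact Nat.add_sub_cancel' (y2 g)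
  have A3 : ∀ b (w : Fin m → ℝ), ∑ j ∈ bundle A b, w (γ j) = tot w (D b) := fun b w => by
    have h1 := A2 fun g b' => if b' = b then w g else 0
    rw [bundle, sum_filter, h1]
    simp [tot]
  have A4 : ∀ b, tot p (D b) = tot p (cnt (u b)) := fun b => by
    refine sum_congr rfl fun g _ => ?_
    rcases (p0 g).eq_or_lt with h1 | h1
    · simp [← h1]
    · simp [D, e, y3 g h1]
  have A5 : ∀ b, tot (v (τ b)) (cnt (u b)) ≤ ∑ j ∈ bundle A b, v (τ b) (γ j) := fun b => by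
    rw [A3]
    exact tot_mono (hv _) fun g => Nat.le_add_right _ _
  choose η η0 η1 η2 η3 using fun b => y4 _ _ (u1 b)
  refine ⟨A, of_prices _ A (fun j => p (γ j)) η (N + 2) (by linarith) η0
    (fun b => by rw [A3, A4, η1]) (fun b T hT => ?_) fun b T hT => ?_⟩
  · rw [sum_count γ T p]
    refine η2 b _ ((A5 b).trans (hT.trans_eq (sum_count γ T (v (τ b)))))
  · rw [sum_count γ T p]
    refine η3 b _ ((A5 b).trans_lt (hT.trans_eq (sum_count γ T (v (τ b)))))

/-- Replicas: `k` copies of each agent and of each good, for all multiples `k` of some `k₀`. -/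
theorem replica (n m : ℕ) (v : Fin n → Fin m → ℝ) (hv : ∀ i g, 0 ≤ v i g) :
    ∃ k₀ : ℕ, 0 < k₀ ∧ ∀ k, k₀ ∣ k → ∀ (N M : ℕ) (τ : Fin N → Fin n) (γ : Fin M → Fin m), 0 < N →
      (∀ i, #{a | τ a = i} = k) → (∀ g, #{j | γ j = g} = k) →
      ∃ A : Fin M → Fin N, IsGMMS 1 (fun a j => v (τ a) (γ j)) A := by
  have h1 : ∀ s : Fin n × Fin m, ∃ k : ℕ, 0 < v s.1 s.2 → ∑ g', v s.1 g' < k * v s.1 s.2 := by
    intro s
    obtain ⟨k, hk⟩ := exists_nat_gt ((∑ g', v s.1 g') / v s.1 s.2)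
    exact ⟨k, fun h => (div_lt_iff₀ h).1 hk⟩
  choose κ hκ using h1
  obtain ⟨d, hd, h⟩ := main n m (univ.sup κ)
  refine ⟨d, hd, fun k hk N M τ γ hN h1 h2 => ?_⟩
  obtain ⟨A, hA, -⟩ := h v N M τ γ hN hv (fun i => h1 i ▸ hk) (fun g => h2 g ▸ hk) fun i g hg => by
    have h3 : (κ (i, g) : ℝ) ≤ (univ.sup κ : ℕ) := by
      exact_mod_cast le_sup (f := κ) (mem_univ (i, g))
    have h4 := (hκ (i, g) hg).le.trans (mul_le_mul_of_nonneg_right h3 hg.le)
    rw [sum_count γ univ (v i), h1]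
    simp only [h2, ← mul_sum]
    exact (mul_le_mul_of_nonneg_left h4 (Nat.cast_nonneg k)).trans_eq (by ring)
  exact ⟨A, hA⟩

end Pool.Agent.FS.GmmsReplica
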