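import Mathlib

/-! Natural solutions of rational systems with a given support, and assignments with given counts. -/

namespace Pool.Agent.FS.GmmsReplica

open Finset Filter Topology

theorem exists_lin_pos {J : Type} [Fintype J] (x : J → ℝ) :
    ∃ φ : ℝ →ₗ[ℚ] ℚ, ∀ j, 0 < x j → 0 < φ (x j) := by
  classical
  let b := Module.Basis.ofVectorSpace ℚ ℝ
  let S : J → ℝ := fun j => ∑ t ∈ (b.repr (x j)).support, |((b.repr (x j) t : ℚ) : ℝ)|
  have h1 : ∀ᶠ δ in 𝓝[>] (0 : ℝ), ∀ j, 0 < x j → δ * S j < x j := by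
    refine eventually_all.2 fun j => ?_
    by_cases hj : 0 < x j
    · have h2 : Tendsto (fun δ : ℝ => δ * S j) (𝓝 0) (𝓝 (0 * S j)) :=
        (continuous_id.mul continuous_const).tendsto 0
      rw [zero_mul] at h2
      exact ((h2.eventually (gt_mem_nhds hj)).filter_mono nhdsWithin_le_nhds).mono
        fun δ h _ => h
    · exact Eventually.of_forall fun δ h => absurd h hj
  obtain ⟨δ, hδ, hδ0⟩ := (h1.and self_mem_nhdsWithin).exists
  have hδ1 : 0 < δ := hδ0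
  choose r hr using fun t => exists_rat_near (b t) hδ1
  refine ⟨b.constr ℚ r, fun j hj => ?_⟩
  have e1 : x j = ∑ t ∈ (b.repr (x j)).support, ((b.repr (x j) t : ℚ) : ℝ) * b t := by
    conv_lhs => rw [← b.linearCombination_repr (x j)]
    rw [Finsupp.linearCombination_apply, Finsupp.sum]
    exact sum_congr rfl fun t _ => Rat.smul_def _ _
  have e2 : ((b.constr ℚ r (x j) : ℚ) : ℝ) =
      ∑ t ∈ (b.repr (x j)).support, ((b.repr (x j) t : ℚ) : ℝ) * r t := by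
    rw [Module.Basis.constr_apply, Finsupp.sum]
    push_cast
    exact sum_congr rfl fun t _ => by rw [smul_eq_mul, Rat.cast_mul]
  have e3 : x j - ((b.constr ℚ r (x j) : ℚ) : ℝ) ≤ δ * S j := by
    refine (congrArg₂ (· - ·) e1 e2).trans_le ?_
    rw [← sum_sub_distrib, mul_sum]
    refine sum_le_sum fun t _ => ?_
    rw [← mul_sub, mul_comm δ]
    refine (le_abs_self _).trans ?_
    rw [abs_mul]
    exact mul_le_mul_of_nonneg_left (hr t).le (abs_nonneg _)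
  have e4 : (0 : ℝ) < ((b.constr ℚ r (x j) : ℚ) : ℝ) := by linarith [hδ j hj]
  exact_mod_cast e4

theorem exists_lin_nat {J : Type} [Fintype J] (x : J → ℝ) (hx : ∀ j, 0 ≤ x j) :
    ∃ (ψ : ℝ →ₗ[ℚ] ℚ) (y : J → ℕ), (∀ j, ψ (x j) = y j) ∧ ∀ j, 0 < x j → 0 < y j := by
  classical
  obtain ⟨φ, hφ⟩ := exists_lin_pos x
  have h0 : ∀ j, 0 ≤ φ (x j) := fun j => by
    rcases (hx j).eq_or_lt with h | h
    · rw [← h, map_zero]
    · exact (hφ j h).le
  have hN : 0 < ∏ j, (φ (x j)).den := prod_pos fun j _ => (φ (x j)).den_pos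
  have h1 : ∀ j, ∃ y : ℕ, ((∏ j, (φ (x j)).den : ℕ) : ℚ) * φ (x j) = y := fun j => by
    obtain ⟨M, hM⟩ := dvd_prod_of_mem (fun j => (φ (x j)).den) (mem_univ j)
    obtain ⟨a, ha⟩ := Int.eq_ofNat_of_zero_le (Rat.num_nonneg.2 (h0 j))
    refine ⟨M * a, ?_⟩
    have h2 : ((φ (x j)).den : ℚ) * φ (x j) = (φ (x j)).num := Rat.den_mul_eq_num _
    rw [hM, ha] at *
    push_cast at *
    linear_combination (M : ℚ) * h2
  choose y hy using h1
  refine ⟨((∏ j, (φ (x j)).den : ℕ) : ℚ) • φ, y, fun j => ?_, fun j hj => ?_⟩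
  · rw [LinearMap.smul_apply, smul_eq_mul, hy]
  · have h2 : (0 : ℚ) < y j := by
      rw [← hy]
      exact mul_pos (by exact_mod_cast hN) (hφ j hj)
    exact_mod_cast h2

theorem exists_nat_sol {J R : Type} [Fintype J] (col : J → R → ℕ) (b : R → ℕ) (x : J → ℝ)
    (hx : ∀ j, 0 ≤ x j) (h : ∀ r, ∑ j, x j * col j r = b r) :
    ∃ k : ℕ, 0 < k ∧ ∃ y : J → ℕ, (∀ j, 0 < y j → 0 < x j) ∧ ∀ r, ∑ j, y j * col j r = k * b r := by
  obtain ⟨ψ, y, hy, hp⟩ := exists_lin_nat (J := Option J) (fun o => o.elim 1 x)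
    (by
      rintro (_ | j)
      · exact zero_le_one
      · exact hx j)
  have a1 : ∀ j, ψ (x j) = y (some j) := fun j => hy (some j)
  have a2 : ψ 1 = y none := hy none
  refine ⟨y none, hp none zero_lt_one, fun j => y (some j),
    fun j hj => (hx j).lt_of_ne fun h0 => ?_, fun r => ?_⟩
  · have h3 := a1 j
    rw [← h0, map_zero] at h3
    have h4 : y (some j) = 0 := by exact_mod_cast h3.symm
    exact hj.ne' h4
  · have h3 := congrArg ψ (h r)
    have h4 : ∀ (t : ℝ) (c : ℕ), ψ (t * c) = ψ t * c := fun t c => by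
      rw [mul_comm, ← nsmul_eq_mul, map_nsmul, nsmul_eq_mul, mul_comm]
    rw [← one_mul (b r : ℝ), h4, a2, map_sum] at h3
    simp only [h4, a1] at h3
    exact_mod_cast h3

/-- One common denominator serves all integral points of the cones spanned by given columns. -/
theorem exists_den {J R : Type} [Fintype J] [Fintype R] (col : J → R → ℕ) :
    ∃ d : ℕ, 0 < d ∧ ∀ (b : R → ℕ) (x : J → ℝ), (∀ j, 0 ≤ x j) →
      (∀ r, ∑ j, x j * col j r = b r) →
      ∃ y : J → ℕ, (∀ j, 0 < y j → 0 < x j) ∧ ∀ r, ∑ j, y j * col j r = d * b r := by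
  classical
  let P : Finset J × (∀ r, Fin (∑ j, col j r + 1)) → ℕ → Prop := fun π k =>
    ∃ y : J → ℕ, (∀ j, 0 < y j → j ∈ π.1) ∧ ∀ r, ∑ j, y j * col j r = k * π.2 r
  have h1 : ∀ π, ∃ k : ℕ, 0 < k ∧ ((∃ k', 0 < k' ∧ P π k') → P π k) := fun π => by
    by_cases h : ∃ k', 0 < k' ∧ P π k'
    · obtain ⟨k, hk, h2⟩ := h
      exact ⟨k, hk, fun _ => h2⟩
    · exact ⟨1, one_pos, fun h2 => absurd h2 h⟩
  choose κ hκ hs using h1
  refine ⟨∏ π, κ π, prod_pos fun π _ => hκ π, fun b x hx h => ?_⟩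
  have f0 : ∀ j, 0 ≤ x j - ⌊x j⌋₊ := fun j => sub_nonneg.2 (Nat.floor_le (hx j))
  have f1 : ∀ j, x j - ⌊x j⌋₊ ≤ 1 := fun j => by linarith [Nat.lt_floor_add_one (x j)]
  have e1 : ∀ r, ∑ j, (x j - ⌊x j⌋₊) * col j r =
      (b r : ℝ) - ((∑ j, ⌊x j⌋₊ * col j r : ℕ) : ℝ) := fun r => by
    rw [← h r]
    push_cast
    rw [← sum_sub_distrib]
    exact sum_congr rfl fun j _ => sub_mul _ _ _
  have e2 : ∀ r, ∑ j, ⌊x j⌋₊ * col j r ≤ b r := fun r => by
    have h2 : 0 ≤ ∑ j, (x j - ⌊x j⌋₊) * col j r :=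
      sum_nonneg fun j _ => mul_nonneg (f0 j) (Nat.cast_nonneg _)
    rw [e1, sub_nonneg] at h2
    exact_mod_cast h2
  have e3 : ∀ r, b r - ∑ j, ⌊x j⌋₊ * col j r < ∑ j, col j r + 1 := fun r => by
    have h2 : ∑ j, (x j - ⌊x j⌋₊) * col j r ≤ ∑ j, (col j r : ℝ) :=
      sum_le_sum fun j _ => mul_le_of_le_one_left (Nat.cast_nonneg _) (f1 j)
    rw [e1, ← Nat.cast_sub (e2 r), ← Nat.cast_sum] at h2
    exact Nat.lt_succ_of_le (by exact_mod_cast h2)
  let π : Finset J × (∀ r, Fin (∑ j, col j r + 1)) :=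
    (univ.filter fun j => 0 < x j, fun r => ⟨_, e3 r⟩)
  obtain ⟨k, hk, y, y1, y2⟩ := exists_nat_sol col (fun r => b r - ∑ j, ⌊x j⌋₊ * col j r)
    (fun j => x j - ⌊x j⌋₊) f0 fun r => by rw [e1, Nat.cast_sub (e2 r)]
  obtain ⟨z, z1, z2⟩ := hs π ⟨k, hk, y, fun j hj => by
    have h2 := y1 j hj
    have h3 : (0 : ℝ) ≤ ⌊x j⌋₊ := Nat.cast_nonneg _
    exact mem_filter.2 ⟨mem_univ _, by linarith⟩, y2⟩
  obtain ⟨t, ht⟩ := dvd_prod_of_mem κ (mem_univ π)
  refine ⟨fun j => (∏ π, κ π) * ⌊x j⌋₊ + t * z j, fun j hj => ?_, fun r => ?_⟩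
  · by_contra hc
    have h2 : x j = 0 := le_antisymm (not_lt.1 hc) (hx j)
    have h3 : z j = 0 := Nat.eq_zero_of_not_pos fun h4 => hc (mem_filter.1 (z1 j h4)).2
    simp [h2, h3] at hj
  · have h2 : ∑ j, z j * col j r = κ π * (b r - ∑ j, ⌊x j⌋₊ * col j r) := z2 r
    simp only [add_mul, sum_add_distrib, mul_assoc, ← mul_sum]
    rw [h2, ← mul_assoc, mul_comm t, ← ht, ← mul_add, Nat.add_sub_cancel' (e2 r)]

theorem exists_assign {α I β : Type} [Fintype α] [Fintype I] [DecidableEq I] [Fintype β]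
    (τ : α → I) (f : I → β → ℕ) (h : ∀ i, ∑ b, f i b = #{a | τ a = i}) :
    ∃ u : α → β, (∀ a, 0 < f (τ a) (u a)) ∧
      ∀ F : I → β → ℝ, ∑ a, F (τ a) (u a) = ∑ i, ∑ b, f i b * F i b := by
  classical
  have e : ∀ i, {a // τ a = i} ≃ {ω : Σ s : I × β, Fin (f s.1 s.2) // ω.1.1 = i} := fun i => by
    refine Fintype.equivOfCardEq ?_
    rw [Fintype.card_subtype, Fintype.card_subtype, ← h, card_filter, Fintype.sum_sigma,
      Fintype.sum_prod_type]
    rw [Fintype.sum_eq_single i fun i' hi => by simp [hi]]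
    simp
  let E := Equiv.ofFiberEquiv (f := τ) (g := fun ω : Σ s : I × β, Fin (f s.1 s.2) => ω.1.1) e
  have hE : ∀ a, (E a).1.1 = τ a := fun a => Equiv.ofFiberEquiv_map e a
  refine ⟨fun a => (E a).1.2, fun a => ?_, fun F => ?_⟩
  · rw [← hE]
    exact (E a).2.pos
  · rw [← Fintype.sum_prod_type']
    have h1 : ∑ a, F (τ a) (E a).1.2 = ∑ ω : Σ s : I × β, Fin (f s.1 s.2), F ω.1.1 ω.1.2 := by
      rw [← E.sum_comp]
      exact sum_congr rfl fun a _ => by rw [hE]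
    rw [h1, Fintype.sum_sigma]
    simp

theorem sum_count {α G : Type} [Fintype G] [DecidableEq G] (γ : α → G) (T : Finset α)
    (w : G → ℝ) : ∑ j ∈ T, w (γ j) = ∑ g, (#{j ∈ T | γ j = g} : ℕ) * w g := by
  rw [← sum_fiberwise T γ]
  refine sum_congr rfl fun g _ => ?_
  rw [sum_congr rfl (g := fun _ => w g) fun j hj => by rw [(mem_filter.1 hj).2]]
  simp

end Pool.Agent.FS.GmmsReplica
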