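import Pool.Agent.FS.GmmsReplica.Box
import Pool.Agent.FS.GmmsReplica.Rat

/-! The market with budgets slightly below one, and its integral points. -/

namespace Pool.Agent.FS.GmmsReplica

open Finset

/-- The total weight of a vector of counts. -/
noncomputable def tot {m : ℕ} (w : Fin m → ℝ) (C : Fin m → ℕ) : ℝ := ∑ g, (C g : ℝ) * w g

theorem tot_mono {m : ℕ} {w : Fin m → ℝ} (hw : ∀ g, 0 ≤ w g) {C D : Fin m → ℕ}
    (h : ∀ g, C g ≤ D g) : tot w C ≤ tot w D :=
  sum_le_sum fun g _ => mul_le_mul_of_nonneg_right (by exact_mod_cast h g) (hw g)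

/-- The counts of a bounded bundle. -/
def cnt {m K : ℕ} (B : Fin m → Fin K) : Fin m → ℕ := fun g => B g

/-- The bundle `B` costs `1 - η`, bundles that are as good cost as much, and better bundles cost
at least `1 - η / L`. -/
def Cert {m : ℕ} (w p : Fin m → ℝ) (L : ℝ) (B : Fin m → ℕ) : Prop :=
  ∃ η : ℝ, 0 < η ∧ tot p B = 1 - η ∧ (∀ C, tot w B ≤ tot w C → 1 - η ≤ tot p C) ∧
    ∀ C, tot w B < tot w C → 1 - η / L ≤ tot p C

theorem market {n m : ℕ} (v : Fin n → Fin m → ℝ) (hv : ∀ i g, 0 ≤ v i g) (K : ℕ)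
    (a : Fin n → ℝ) (ha : ∀ i, 0 ≤ a i) (s : Fin m → ℝ) (hs : ∀ g, 0 ≤ s g)
    (hK : ∀ i g, 0 < a i → 0 < v i g → ∑ g', s g' * v i g' < a i * (K * v i g))
    (L : ℝ) (hL : 2 ≤ L) :
    ∃ (x : Fin n → (Fin m → Fin (2 * K + 1)) → ℝ) (p : Fin m → ℝ),
      (∀ i B, 0 ≤ x i B) ∧ (∀ g, 0 ≤ p g) ∧ (∀ i, ∑ B, x i B = a i) ∧
      (∀ g, ∑ i, ∑ B, x i B * cnt B g ≤ s g) ∧
      (∀ g, 0 < p g → ∑ i, ∑ B, x i B * cnt B g = s g) ∧
      ∀ i B, 0 < x i B → Cert (v i) p L (cnt B) := by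
  classical
  have hL0 : 0 < L := by linarith
  let rk : Fin n → (Fin m → Fin (2 * K + 1)) → ℕ := fun i B =>
    #{B' : Fin m → Fin (2 * K + 1) | tot (v i) (cnt B') < tot (v i) (cnt B)}
  have hi0 : 0 < L⁻¹ := inv_pos.2 hL0
  have hi1 : L⁻¹ ≤ 1 := inv_le_one_of_one_le₀ (by linarith)
  have c1 : ∀ i B C, tot (v i) (cnt B) ≤ tot (v i) (cnt C) → L⁻¹ ^ rk i C ≤ L⁻¹ ^ rk i B := by
    intro i B C h
    refine pow_le_pow_of_le_one hi0.le hi1 (card_le_card fun D hD => ?_)
    simp only [mem_filter, mem_univ, true_and] at hD ⊢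
    exact hD.trans_le h
  have c2 : ∀ i B C, tot (v i) (cnt B) < tot (v i) (cnt C) →
      L⁻¹ ^ rk i C ≤ L⁻¹ ^ rk i B / L := by
    intro i B C h
    rw [div_eq_mul_inv, ← pow_succ]
    refine pow_le_pow_of_le_one hi0.le hi1 (card_lt_card ⟨fun D hD => ?_, fun h1 => ?_⟩)
    · simp only [mem_filter, mem_univ, true_and] at hD ⊢
      exact hD.trans h
    · have := h1 (show B ∈ _ by simpa using h)
      simp at this
  obtain ⟨x, p, lam, x0, p0, l0, m1, u1, u2, e1, e2⟩ :=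
    equil (I := Fin n) (cnt (m := m) (K := 2 * K + 1)) (fun i B => L⁻¹ ^ rk i B)
      (fun i B => pow_pos hi0 _) 0 (fun g => rfl) a ha s hs
  have t0 : ∀ C, 0 ≤ tot p C := fun C =>
    sum_nonneg fun g _ => mul_nonneg (Nat.cast_nonneg _) (p0 g)
  have big : ∀ i g, 0 < a i → 0 < v i g → 1 ≤ 2 * K * p g := by
    intro i g hi hg
    obtain ⟨B, hB, hB1⟩ : ∃ B, 0 < x i B ∧ tot (v i) (cnt B) < K * v i g := by
      by_contra hc
      push Not at hc
      have h1 : ∑ B, x i B * (K * v i g) ≤ ∑ B, x i B * tot (v i) (cnt B) := by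
        refine sum_le_sum fun B _ => ?_
        rcases (x0 i B).eq_or_lt with h | h
        · simp [← h]
        · exact mul_le_mul_of_nonneg_left (hc B h) h.le
      have h2 : ∑ B, x i B * tot (v i) (cnt B) = ∑ g', (∑ B, x i B * cnt B g') * v i g' := by
        simp only [tot, mul_sum, sum_mul]
        rw [sum_comm]
        exact sum_congr rfl fun _ _ => sum_congr rfl fun _ _ => by ring
      have h3 : ∑ g', (∑ B, x i B * cnt B g') * v i g' ≤ ∑ g', s g' * v i g' := by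
        refine sum_le_sum fun g' _ => mul_le_mul_of_nonneg_right (le_trans ?_ (u1 g')) (hv i g')
        exact single_le_sum (f := fun i => ∑ B, x i B * cnt B g')
          (fun i _ => sum_nonneg fun B _ => mul_nonneg (x0 i B) (Nat.cast_nonneg _)) (mem_univ i)
      rw [← sum_mul, m1] at h1
      linarith [hK i g hi hg]
    let C : Fin m → Fin (2 * K + 1) := Pi.single g ⟨K, by omega⟩
    have hC : ∀ w, tot w (cnt C) = K * w g := fun w => by
      unfold tot
      rw [Fintype.sum_eq_single g fun g' h => by simp [cnt, C, h]]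
      simp [cnt, C]
    have h1 := mul_le_mul_of_nonneg_left (c2 i B C (by rwa [hC])) (l0 i).le
    have h2 : 1 ≤ lam i * L⁻¹ ^ rk i C + tot p (cnt C) := e1 i C
    have h3 : lam i * L⁻¹ ^ rk i B + tot p (cnt B) = 1 := e2 i B hB
    have h4 : lam i * (L⁻¹ ^ rk i B / L) ≤ 1 / 2 := by
      rw [← mul_div_assoc, div_le_iff₀ hL0]
      linarith [t0 (cnt B)]
    rw [hC] at h2
    linarith
  have cut : ∀ i (C : Fin m → ℕ), 0 < a i → 1 ≤ tot p C ∨ ∃ D : Fin m → Fin (2 * K + 1),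
      tot (v i) (cnt D) = tot (v i) C ∧ tot p (cnt D) ≤ tot p C := by
    intro i C hi
    by_cases h : ∃ g, 0 < v i g ∧ 2 * K ≤ C g
    · obtain ⟨g, hg, h1⟩ := h
      left
      have h2 : (C g : ℝ) * p g ≤ tot p C := single_le_sum (f := fun g => (C g : ℝ) * p g)
        (fun g _ => mul_nonneg (Nat.cast_nonneg _) (p0 g)) (mem_univ g)
      have h3 : (2 * K : ℝ) ≤ C g := by exact_mod_cast h1
      linarith [big i g hi hg, mul_le_mul_of_nonneg_right h3 (p0 g)]
    · push Not at h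
      refine Or.inr ⟨fun g => ⟨min (C g) (2 * K), by omega⟩, sum_congr rfl fun g _ => ?_,
        tot_mono p0 fun g => min_le_left _ _⟩
      rcases (hv i g).eq_or_lt with h1 | h1
      · simp [← h1]
      · simp only [cnt]
        rw [min_eq_left (h g h1).le]
  refine ⟨x, p, x0, p0, m1, u1, u2, fun i B hB => ?_⟩
  have hi : 0 < a i :=
    hB.trans_le ((single_le_sum (f := x i) (fun B _ => x0 i B) (mem_univ B)).trans_eq (m1 i))
  have h3 : lam i * L⁻¹ ^ rk i B + tot p (cnt B) = 1 := e2 i B hB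
  have h4 : 0 < lam i * L⁻¹ ^ rk i B := mul_pos (l0 i) (pow_pos hi0 _)
  refine ⟨lam i * L⁻¹ ^ rk i B, h4, by linarith, fun C hC => ?_, fun C hC => ?_⟩
  · rcases cut i C hi with h | ⟨D, h1, h2⟩
    · linarith
    · have h5 := mul_le_mul_of_nonneg_left (c1 i B D (by rwa [h1])) (l0 i).le
      have h6 : 1 ≤ lam i * L⁻¹ ^ rk i D + tot p (cnt D) := e1 i D
      linarith
  · rcases cut i C hi with h | ⟨D, h1, h2⟩
    · linarith [div_pos h4 hL0]
    · have h5 := mul_le_mul_of_nonneg_left (c2 i B D (by rwa [h1])) (l0 i).le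
      have h6 : 1 ≤ lam i * L⁻¹ ^ rk i D + tot p (cnt D) := e1 i D
      rw [mul_div_assoc]
      linarith

/-- Integral markets when all multiplicities are multiples of one number `d`. -/
theorem int_market (n m K : ℕ) : ∃ d : ℕ, 0 < d ∧
    ∀ (v : Fin n → Fin m → ℝ), (∀ i g, 0 ≤ v i g) → ∀ (a : Fin n → ℕ) (s : Fin m → ℕ),
      (∀ i g, 0 < a i → 0 < v i g → ∑ g', s g' * v i g' < a i * (K * v i g)) →
      ∀ L : ℝ, 2 ≤ L → ∃ (y : Fin n → (Fin m → Fin (2 * K + 1)) → ℕ) (p : Fin m → ℝ),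
        (∀ g, 0 ≤ p g) ∧ (∀ i, ∑ B, y i B = d * a i) ∧
        (∀ g, ∑ i, ∑ B, y i B * cnt B g ≤ d * s g) ∧
        (∀ g, 0 < p g → ∑ i, ∑ B, y i B * cnt B g = d * s g) ∧
        ∀ i B, 0 < y i B → Cert (v i) p L (cnt B) := by
  classical
  obtain ⟨d, hd, h⟩ := exists_den (J := (Fin n × (Fin m → Fin (2 * K + 1))) ⊕ Fin m)
    (R := Fin n ⊕ Fin m)
    (Sum.elim (fun t => Sum.elim (fun i => if t.1 = i then 1 else 0) (cnt t.2))
      fun g => Sum.elim (fun _ => 0) fun g' => if g = g' then 1 else 0)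
  refine ⟨d, hd, fun v hv a s hK L hL => ?_⟩
  obtain ⟨x, p, x0, p0, m1, u1, u2, hc⟩ := market v hv K (fun i => a i) (fun i => Nat.cast_nonneg _)
    (fun g => s g) (fun g => Nat.cast_nonneg _)
    (fun i g hi hg => hK i g (by exact_mod_cast hi) hg) L hL
  obtain ⟨y, y1, y2⟩ := h (Sum.elim a s)
    (Sum.elim (fun t => x t.1 t.2) fun g => s g - ∑ i, ∑ B, x i B * cnt B g)
    (by
      rintro (t | g)
      · exact x0 _ _
      · exact sub_nonneg.2 (u1 g))
    (by
      rintro (i | g)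
      · rw [Fintype.sum_sum_type, Fintype.sum_prod_type,
          Fintype.sum_eq_single i fun i' hi => by simp [hi]]
        simpa using m1 i
      · rw [Fintype.sum_sum_type, Fintype.sum_prod_type]
        simp)
  have z : ∀ g, ∑ i, ∑ B, y (.inl (i, B)) * cnt B g + y (.inr g) = d * s g := fun g => by
    have h1 := y2 (.inr g)
    rw [Fintype.sum_sum_type, Fintype.sum_prod_type] at h1
    simpa using h1
  refine ⟨fun i B => y (.inl (i, B)), p, p0, fun i => ?_, fun g => Nat.le.intro (z g),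
    fun g hg => ?_, fun i B hB => hc i B (y1 (.inl (i, B)) hB)⟩
  · have h1 := y2 (.inl i)
    rw [Fintype.sum_sum_type, Fintype.sum_prod_type,
      Fintype.sum_eq_single i fun i' hi => by simp [hi]] at h1
    simpa using h1
  · have h1 : y (.inr g) = 0 := Nat.eq_zero_of_not_pos fun h2 => by
      have h3 : 0 < s g - ∑ i, ∑ B, x i B * cnt B g := y1 _ h2
      linarith [u2 g hg]
    rw [← z g, h1, add_zero]

end Pool.Agent.FS.GmmsReplica
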